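import Pool.Agent.LSG.StmtsA

/-!
LSG, row NLS: `G` is neither l-stable nor S-stable.
-/

set_option autoImplicit false

open MeasureTheory Set Topology

namespace Pool.Agent.LSG.H43

open Pool.Agent.LSG

theorem lec_symm {X Y : Type} [TopologicalSpace X] [TopologicalSpace Y] (h : LEc X Y) : LEc Y X := by
  obtain ⟨e⟩ := h
  exact ⟨e.symm⟩

theorem lec_trans {X Y Z : Type} [TopologicalSpace X] [TopologicalSpace Y] [TopologicalSpace Z]
    (h : LEc X Y) (h' : LEc Y Z) : LEc X Z := by
  obtain ⟨e⟩ := h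
  obtain ⟨e'⟩ := h'
  exact ⟨e.trans e'⟩

theorem lec_refl (X : Type) [TopologicalSpace X] : LEc X X := ⟨ContinuousLinearEquiv.refl ℝ _⟩

theorem dmap_of_equiv {X Y : Type} [TopologicalSpace X] [TopologicalSpace Y]
    (T : C(X, ℝ) ≃ₗ[ℝ] C(Y, ℝ)) (h : PCont (fun f => T f)) : DMap X Y := by
  refine ⟨(T : C(X, ℝ) →ₗ[ℝ] C(Y, ℝ)), h, ?_⟩
  intro g F ε hε
  refine ⟨T.symm g, fun y _ => ?_⟩
  have : (T : C(X, ℝ) →ₗ[ℝ] C(Y, ℝ)) (T.symm g) = g := T.apply_symm_apply g
  rw [this, sub_self, abs_zero]
  exact hε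

/-- first part -/
theorem part1 (hM : MaiStmt) (G : AddSubgroup K) (hG : Big G) (k : ℕ) (A B : Set (G × Fin k))
    (hA : IsClopen A) (hB : IsClopen B) (h : LEq ↥A ↥B) : dm A = dm B := by
  obtain ⟨T, h1, h2⟩ := h
  rcases lt_trichotomy (dm A) (dm B) with hlt | heq | hgt
  · exact absurd (dmap_of_equiv T h1) (hM G hG k A B hA hB hlt)
  · exact heq
  · exact absurd (dmap_of_equiv T.symm h2) (hM G hG k B A hB hA hgt)

/-- the sum of `G` and `A` inside `G × Fin (k + 1)` -/
def BB {G : AddSubgroup K} {k : ℕ} (A : Set (G × Fin k)) : Set (G × Fin (k + 1)) :=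
  {p | p.2 = 0 ∨ ∃ i : Fin k, p.2 = i.succ ∧ (p.1, i) ∈ A}

/-- the slice zero -/
def B0 (G : AddSubgroup K) (k : ℕ) : Set (G × Fin (k + 1)) := {p | p.2 = 0}

theorem clopen_slice {G : AddSubgroup K} {n : ℕ} (j : Fin n) :
    IsClopen {p : G × Fin n | p.2 = j} :=
  (isClopen_discrete ({j} : Set (Fin n))).preimage continuous_snd

theorem B0_clopen (G : AddSubgroup K) (k : ℕ) : IsClopen (B0 G k) := clopen_slice 0

theorem BB_eq {G : AddSubgroup K} {k : ℕ} (A : Set (G × Fin k)) :
    BB A = {p | p.2 = 0} ∪ ⋃ i : Fin k, ({p | p.2 = i.succ} ∩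
      (fun p : G × Fin (k + 1) => (p.1, i)) ⁻¹' A) := by
  ext p
  simp only [BB, mem_setOf_eq, mem_union, mem_iUnion, mem_inter_iff, mem_preimage]

theorem BB_clopen {G : AddSubgroup K} {k : ℕ} {A : Set (G × Fin k)} (hA : IsClopen A) :
    IsClopen (BB A) := by
  rw [BB_eq]
  refine (clopen_slice 0).union (isClopen_iUnion_of_finite fun i => ?_)
  exact (clopen_slice i.succ).inter (hA.preimage (by fun_prop))

theorem homeo0 (G : AddSubgroup K) (k : ℕ) : Nonempty (G ≃ₜ ↥(B0 G k)) :=
  ⟨{ toFun := fun x => ⟨(x, 0), rfl⟩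
     invFun := fun p => p.1.1
     left_inv := fun x => rfl
     right_inv := by
      rintro ⟨⟨x, i⟩, h⟩
      have h' : i = 0 := h
      subst h'
      rfl
     continuous_toFun := by fun_prop
     continuous_invFun := by fun_prop }⟩

/-- the map of the sum -/
def ff {G : AddSubgroup K} {k : ℕ} (A : Set (G × Fin k)) : G ⊕ ↥A → ↥(BB A) :=
  Sum.elim (fun x => ⟨(x, 0), Or.inl rfl⟩)
    (fun a => ⟨(a.1.1, a.1.2.succ), Or.inr ⟨a.1.2, rfl, a.2⟩⟩)

theorem homeo1 {G : AddSubgroup K} {k : ℕ} (A : Set (G × Fin k)) (hA : IsClopen A) :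
    Nonempty ((G ⊕ ↥A) ≃ₜ ↥(BB A)) := by
  have hbij : Function.Bijective (ff A) := by
    constructor
    · rintro (x | a) (y | b) h
      · have h1 := congrArg (fun p : ↥(BB A) => p.1.1) h
        simp only [ff, Sum.elim_inl] at h1
        rw [h1]
      · have h1 := congrArg (fun p : ↥(BB A) => p.1.2) h
        simp only [ff, Sum.elim_inl, Sum.elim_inr] at h1
        exact absurd h1.symm (Fin.succ_ne_zero _)
      · have h1 := congrArg (fun p : ↥(BB A) => p.1.2) h
        simp only [ff, Sum.elim_inl, Sum.elim_inr] at h1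
        exact absurd h1 (Fin.succ_ne_zero _)
      · have h1 := congrArg (fun p : ↥(BB A) => p.1.1) h
        have h2 := congrArg (fun p : ↥(BB A) => p.1.2) h
        simp only [ff, Sum.elim_inr] at h1 h2
        have h3 := Fin.succ_injective _ h2
        have h4 : a = b := Subtype.ext (Prod.ext h1 h3)
        rw [h4]
    · rintro ⟨⟨x, j⟩, h⟩
      rcases h with h | ⟨i, hi, hiA⟩
      · have h' : j = 0 := h
        subst h'
        exact ⟨Sum.inl x, rfl⟩
      · have h' : j = i.succ := hi
        subst h'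
        exact ⟨Sum.inr ⟨(x, i), hiA⟩, rfl⟩
  have hcont : Continuous (ff A) := by
    unfold ff
    refine continuous_sum_dom.2 ⟨?_, ?_⟩
    · exact Continuous.subtype_mk (by fun_prop) _
    · refine Continuous.subtype_mk ?_ _
      refine Continuous.prodMk (by fun_prop) ?_
      exact (continuous_of_discreteTopology (f := fun i : Fin k => i.succ)).comp
        (continuous_snd.comp continuous_subtype_val)
  have hopen : IsOpenMap (ff A) := by
    intro U hU
    have h1 : IsOpen (Sum.inl ⁻¹' U : Set G) := (isOpen_sum_iff.1 hU).1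
    have h2 : IsOpen (Sum.inr ⁻¹' U : Set ↥A) := (isOpen_sum_iff.1 hU).2
    obtain ⟨V, hV, hVU⟩ := isOpen_induced_iff.1 h2
    have e : ff A '' U = (Subtype.val ⁻¹' ({p : G × Fin (k + 1) | p.2 = 0} ∩
        (fun p => p.1) ⁻¹' (Sum.inl ⁻¹' U : Set G))) ∪
        (Subtype.val ⁻¹' (⋃ i : Fin k, ({p : G × Fin (k + 1) | p.2 = i.succ} ∩
          (fun p : G × Fin (k + 1) => (p.1, i)) ⁻¹' (V ∩ A)))) := by
      ext b
      constructor
      · rintro ⟨u, hu, rfl⟩
        rcases u with x | a
        · left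
          exact ⟨rfl, hu⟩
        · right
          simp only [mem_preimage, mem_iUnion]
          refine ⟨a.1.2, rfl, ?_, a.2⟩
          have : a ∈ Subtype.val ⁻¹' V := by
            rw [hVU]
            exact hu
          exact this
      · rintro (⟨hb, hb'⟩ | hb)
        · obtain ⟨⟨x, j⟩, hxj⟩ := b
          have h' : j = 0 := hb
          subst h'
          exact ⟨Sum.inl x, hb', rfl⟩
        · simp only [mem_preimage, mem_iUnion] at hb
          obtain ⟨i, hi, hiV, hiA⟩ := hb
          obtain ⟨⟨x, j⟩, hxj⟩ := b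
          have h' : j = i.succ := hi
          subst h'
          refine ⟨Sum.inr ⟨(x, i), hiA⟩, ?_, rfl⟩
          have : (⟨(x, i), hiA⟩ : ↥A) ∈ Subtype.val ⁻¹' V := hiV
          rw [hVU] at this
          exact this
    rw [e]
    refine IsOpen.union ?_ ?_
    · exact ((clopen_slice 0).isOpen.inter (h1.preimage continuous_fst)).preimage
        continuous_subtype_val
    · refine (isOpen_iUnion fun i => ?_).preimage continuous_subtype_val
      exact (clopen_slice i.succ).isOpen.inter ((hV.inter hA.isOpen).preimage (by fun_prop))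
  exact ⟨(Equiv.ofBijective _ hbij).toHomeomorphOfContinuousOpen hcont hopen⟩

theorem sl_BB_zero {G : AddSubgroup K} {k : ℕ} (A : Set (G × Fin k)) :
    sl (BB A) 0 = sl (B0 G k) 0 := by
  ext x
  constructor
  · rintro ⟨h, -⟩
    exact ⟨h, rfl⟩
  · rintro ⟨h, -⟩
    exact ⟨h, Or.inl rfl⟩

theorem sl_BB_succ {G : AddSubgroup K} {k : ℕ} (A : Set (G × Fin k)) (i : Fin k) :
    sl (BB A) i.succ = sl A i := by
  ext x
  constructor
  · rintro ⟨h, h0 | ⟨j, hj, hjA⟩⟩
    · exact absurd h0 (Fin.succ_ne_zero _)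
    · have := Fin.succ_injective _ hj
      subst this
      exact ⟨h, hjA⟩
  · rintro ⟨h, hA⟩
    exact ⟨h, Or.inr ⟨i, rfl, hA⟩⟩

theorem sl_B0_succ (G : AddSubgroup K) (k : ℕ) (i : Fin k) : sl (B0 G k) i.succ = ∅ := by
  ext x
  simp only [mem_empty_iff_false, iff_false]
  rintro ⟨h, h0⟩
  exact absurd h0 (Fin.succ_ne_zero _)

theorem mu_univ (hY : CylStmt) : mu univ = 1 := by
  have h := hY 0 0
  have e : {x : K | ∀ i < 0, x i = (0 : K) i} = univ := by
    ext x
    simp
  rw [e] at h
  rw [h]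
  simp

theorem dm_BB (G : AddSubgroup K) (k : ℕ) (A : Set (G × Fin k)) :
    dm (BB A) = dm (B0 G k) + dm A := by
  unfold dm
  rw [Fin.sum_univ_succ, Fin.sum_univ_succ, sl_BB_zero]
  simp only [sl_BB_succ, sl_B0_succ, measure_empty, Finset.sum_const_zero, add_zero]

theorem dm_B0_ne (hY : CylStmt) (G : AddSubgroup K) (k : ℕ) : dm (B0 G k) ≠ ⊤ := by
  unfold dm
  rw [Fin.sum_univ_succ]
  simp only [sl_B0_succ, measure_empty, Finset.sum_const_zero, add_zero]
  refine ne_top_of_le_ne_top ?_ (measure_mono (subset_univ _))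
  rw [mu_univ hY]
  exact ENNReal.one_ne_top

theorem dm_pos (hO : OutStmt) (hY : CylStmt) (G : AddSubgroup K) (hG : Big G) (k : ℕ)
    (A : Set (G × Fin k)) (hA : IsOpen A) (hne : A.Nonempty) : dm A ≠ 0 := by
  obtain ⟨⟨x, i⟩, hx⟩ := hne
  -- the slice is open in `G`
  have h1 : IsOpen {y : G | (y, i) ∈ A} := hA.preimage (by fun_prop)
  obtain ⟨V, hV, hVe⟩ := isOpen_induced_iff.1 h1
  have hxV : (x : K) ∈ V := by
    have : x ∈ (Subtype.val ⁻¹' V : Set G) := by
      rw [hVe]
      exact hx
    exact this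
  obtain ⟨I, u, hu, hsub⟩ := isOpen_pi_iff.1 hV x.1 hxV
  obtain ⟨n, hn⟩ : ∃ n : ℕ, ∀ j ∈ I, j < n := by
    refine ⟨I.sup id + 1, fun j hj => ?_⟩
    have := Finset.le_sup (f := id) hj
    simp only [id] at this
    omega
  have hcyl : {y : K | ∀ j < n, y j = (x : K) j} ⊆ V := by
    intro y hy
    apply hsub
    intro j hj
    have hj' : j ∈ I := hj
    rw [hy j (hn j hj')]
    exact (hu j hj').2
  have hmeas : MeasurableSet {y : K | ∀ j < n, y j = (x : K) j} := by
    have e : {y : K | ∀ j < n, y j = (x : K) j} = ⋂ j : ℕ, ⋂ _ : j < n,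
        (fun y : K => y j) ⁻¹' {(x : K) j} := by
      ext y
      simp
    rw [e]
    refine MeasurableSet.iInter fun j => MeasurableSet.iInter fun _ => ?_
    exact (measurable_pi_apply j) (measurableSet_singleton _)
  have h2 : mu {y : K | y ∈ G ∧ y ∈ {y : K | ∀ j < n, y j = (x : K) j}} = (2 ^ n : ENNReal)⁻¹ := by
    rw [hO G hG _ hmeas, hY n (x : K)]
  have h3 : {y : K | y ∈ G ∧ y ∈ {y : K | ∀ j < n, y j = (x : K) j}} ⊆ sl A i := by
    rintro y ⟨hyG, hy⟩
    refine ⟨hyG, ?_⟩
    have : (⟨y, hyG⟩ : G) ∈ (Subtype.val ⁻¹' V : Set G) := hcyl hy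
    rw [hVe] at this
    exact this
  intro h0
  unfold dm at h0
  have h4 : mu (sl A i) = 0 := by
    have := (Finset.sum_eq_zero_iff.1 h0) i (Finset.mem_univ i)
    exact this
  have h5 := measure_mono (μ := mu) h3
  rw [h2, h4] at h5
  have h6 : (2 ^ n : ENNReal)⁻¹ = 0 := le_antisymm h5 zero_le
  rw [ENNReal.inv_eq_zero] at h6
  exact (ENNReal.pow_ne_top (by norm_num)) h6

/-- second part -/
theorem part2 (hM : MaiStmt) (hC : CpeStmt) (hB : BriStmt) (hO : OutStmt) (hY : CylStmt)
    (G : AddSubgroup K) (hG : Big G) (k : ℕ) (A : Set (G × Fin k)) (hA : IsClopen A)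
    (hne : A.Nonempty) : ¬ LEq G (G ⊕ ↥A) := by
  intro h
  have h1 : LEc G (G ⊕ ↥A) := (hB.1 _ _).1 h
  have h2 : LEc (↥(B0 G k)) (↥(BB A)) :=
    lec_trans (lec_symm (hC.1 _ _ (homeo0 G k))) (lec_trans h1 (hC.1 _ _ (homeo1 A hA)))
  have h3 : dm (B0 G k) = dm (BB A) :=
    part1 hM G hG (k + 1) _ _ (B0_clopen G k) (BB_clopen hA) ((hB.1 _ _).2 h2)
  rw [dm_BB] at h3
  have h4 : dm A = 0 := by
    have h5 : dm (B0 G k) + 0 = dm (B0 G k) + dm A := by rw [add_zero]; exact h3
    exact ((ENNReal.add_right_inj (dm_B0_ne hY G k)).1 h5).symm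
  exact dm_pos hO hY G hG k A hA.isOpen hne h4

theorem homeo_univ (G : AddSubgroup K) : Nonempty (G ≃ₜ ↥(univ : Set (G × Fin 1))) :=
  ⟨{ toFun := fun x => ⟨(x, 0), trivial⟩
     invFun := fun p => p.1.1
     left_inv := fun x => rfl
     right_inv := by
      rintro ⟨⟨x, i⟩, h⟩
      have h' : i = 0 := Subsingleton.elim _ _
      subst h'
      rfl
     continuous_toFun := by fun_prop
     continuous_invFun := by fun_prop }⟩

/-- not equivalent to the sum with itself -/
theorem not_two (hM : MaiStmt) (hC : CpeStmt) (hB : BriStmt) (hO : OutStmt) (hY : CylStmt)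
    (G : AddSubgroup K) (hG : Big G) : ¬ LEc G (G ⊕ G) := by
  intro h
  refine part2 hM hC hB hO hY G hG 1 univ isClopen_univ ⟨(0, 0), trivial⟩ ((hB.1 _ _).2 ?_)
  exact lec_trans h (hC.2.2.2 _ _ _ _ (lec_refl G) (hC.1 _ _ (homeo_univ G)))

/-- a convergent sequence with one point added -/
theorem homeo_onePoint : Nonempty ((OnePoint ℕ ⊕ Unit) ≃ₜ OnePoint ℕ) := by
  set f : OnePoint ℕ ⊕ Unit → OnePoint ℕ :=
    Sum.elim (fun x => OnePoint.map Nat.succ x) (fun _ => ((0 : ℕ) : OnePoint ℕ)) with hf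
  have hbij : Function.Bijective f := by
    constructor
    · rintro (x | x) (y | y) h
      · simp only [hf, Sum.elim_inl] at h
        induction x using OnePoint.rec with
        | infty =>
          induction y using OnePoint.rec with
          | infty => rfl
          | coe b =>
            simp only [OnePoint.map_infty, OnePoint.map_some] at h
            exact absurd h (OnePoint.infty_ne_coe _)
        | coe a =>
          induction y using OnePoint.rec with
          | infty =>
            simp only [OnePoint.map_infty, OnePoint.map_some] at h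
            exact absurd h (OnePoint.coe_ne_infty _)
          | coe b =>
            simp only [OnePoint.map_some] at h
            have h1 := OnePoint.coe_injective h
            have h2 : a = b := Nat.succ_injective h1
            rw [h2]
      · simp only [hf, Sum.elim_inl, Sum.elim_inr] at h
        induction x using OnePoint.rec with
        | infty =>
          simp only [OnePoint.map_infty] at h
          exact absurd h (OnePoint.infty_ne_coe _)
        | coe a =>
          simp only [OnePoint.map_some] at h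
          have h1 := OnePoint.coe_injective h
          exact absurd h1 (Nat.succ_ne_zero a)
      · simp only [hf, Sum.elim_inl, Sum.elim_inr] at h
        induction y using OnePoint.rec with
        | infty =>
          simp only [OnePoint.map_infty] at h
          exact absurd h (OnePoint.coe_ne_infty _)
        | coe a =>
          simp only [OnePoint.map_some] at h
          have h1 := OnePoint.coe_injective h
          exact absurd h1.symm (Nat.succ_ne_zero a)
      · rfl
    · intro y
      induction y using OnePoint.rec with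
      | infty => exact ⟨Sum.inl OnePoint.infty, rfl⟩
      | coe b =>
        rcases b with _ | b
        · exact ⟨Sum.inr (), rfl⟩
        · exact ⟨Sum.inl (b : OnePoint ℕ), rfl⟩
  have hcont : Continuous f := by
    refine continuous_sum_dom.2 ⟨?_, continuous_const⟩
    have : (f ∘ Sum.inl) = fun x : OnePoint ℕ => OnePoint.map Nat.succ x := by
      funext x
      rfl
    rw [this, OnePoint.continuous_iff_from_nat]
    have h1 : Filter.Tendsto (fun n : ℕ => ((n + 1 : ℕ) : OnePoint ℕ)) Filter.atTop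
        (𝓝 OnePoint.infty) := by
      have h2 : Filter.Tendsto (fun n : ℕ => ((n : ℕ) : OnePoint ℕ)) Filter.atTop
          (𝓝 OnePoint.infty) := by
        have h3 := (OnePoint.continuous_iff_from_nat (f := (id : OnePoint ℕ → OnePoint ℕ))).1
          continuous_id
        exact h3
      exact h2.comp (Filter.tendsto_add_atTop_nat 1)
    exact h1
  exact ⟨hcont.homeoOfEquivCompactToT2 (f := Equiv.ofBijective f hbij)⟩

theorem homeo_prod (X : Type) [TopologicalSpace X] :
    Nonempty ((X × OnePoint ℕ) ≃ₜ ((X × OnePoint ℕ) ⊕ X)) := by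
  obtain ⟨e⟩ := homeo_onePoint
  exact ⟨((Homeomorph.refl X).prodCongr e.symm).trans
    (Homeomorph.prodSumDistrib.trans
      (Homeomorph.sumCongr (Homeomorph.refl _) (Homeomorph.prodPUnit X)))⟩

theorem nls (hM : MaiStmt) (hC : CpeStmt) (hX : CexStmt) (hB : BriStmt) (hO : OutStmt)
    (hY : CylStmt) : NlsStmt := by
  intro G hG
  have two := not_two hM hC hB hO hY G hG
  refine ⟨fun k A B hA hB' h => part1 hM G hG k A B hA hB' h,
    fun k A hA hne => part2 hM hC hB hO hY G hG k A hA hne, ?_, ?_⟩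
  · intro hst
    have h1 : LEmb (univ : Set G) := (hB.2 G univ).2 (hX.2 G univ isClopen_univ)
    have h2 : LEc G (G ⊕ ↥(univ : Set G)) := (hB.1 _ _).1 (hst univ h1)
    refine two (lec_trans h2 (hC.2.2.2 _ _ _ _ (lec_refl G) (hC.1 _ _ ?_)))
    exact ⟨Homeomorph.Set.univ G⟩
  · intro hst
    have h1 : LEc (G × OnePoint ℕ) G := (hB.1 _ _).1 hst
    have h2 : LEc (G × OnePoint ℕ) ((G × OnePoint ℕ) ⊕ G) := hC.1 _ _ (homeo_prod G)
    exact two (lec_trans (lec_symm h1) (lec_trans h2 (hC.2.2.2 _ _ _ _ h1 (lec_refl G))))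

end Pool.Agent.LSG.H43
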