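import Pool.Agent.LSG.StmtsD

/-!
# Squad LSG, row SID: a Sidon sequence
-/

set_option autoImplicit false

namespace Pool.Agent.LSG.H43

open Pool.Agent.LSG

theorem sid : SidStmt := by
  classical
  intro H _ U hU h
  choose pick hpick using h
  let G : Finset H → Finset H := fun S =>
    S ∪ ((S ×ˢ S) ×ˢ S).image (fun p => p.1.1 - p.1.2 + p.2)
  let S : ℕ → Finset H := fun n => Nat.rec ∅ (fun _ T => insert (pick (G T)) T) n
  let d : ℕ → H := fun n => pick (G (S n))
  have hS : ∀ n, S (n + 1) = insert (d n) (S n) := fun n => rfl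
  have hmem : ∀ n m, m < n → d m ∈ S n := by
    intro n
    induction n with
    | zero => intro m hm; exact absurd hm (Nat.not_lt_zero _)
    | succ n ih =>
      intro m hm
      rw [hS]
      rcases Nat.lt_succ_iff_lt_or_eq.1 hm with h1 | h1
      · exact Finset.mem_insert_of_mem (ih m h1)
      · subst h1; exact Finset.mem_insert_self _ _
  have h1 : ∀ n m, m < n → d n - d m ∉ U := by
    intro n m hm
    exact hpick _ _ (Finset.mem_union_left _ (hmem n m hm))
  have h2 : ∀ n r' r s, r' < n → r < n → s < n → d n - (d r' - d r + d s) ∉ U := by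
    intro n r' r s h3 h4 h5
    refine hpick _ _ (Finset.mem_union_right _ (Finset.mem_image.2 ⟨((d r', d r), d s), ?_, rfl⟩))
    exact Finset.mem_product.2 ⟨Finset.mem_product.2 ⟨hmem n r' h3, hmem n r h4⟩, hmem n s h5⟩
  have h3 : ∀ s s', s ≠ s' → d s - d s' ∉ U := by
    intro s s' hne hin
    rcases Nat.lt_or_gt_of_ne hne with h4 | h4
    · refine h1 s' s h4 ?_
      have := hU _ hin
      rwa [neg_sub] at this
    · exact h1 s s' h4 hin
  refine ⟨d, h3, ?_⟩
  intro s s' r r' hs hr hin
  rcases Nat.lt_trichotomy r' s' with h4 | h4 | h4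
  · exfalso
    refine h2 s' r' r s h4 (hr.trans h4) hs ?_
    have : d s' - (d r' - d r + d s) = d s' - d s - (d r' - d r) := by abel
    rwa [this]
  · subst h4
    refine ⟨?_, rfl⟩
    by_contra hne
    refine h3 r s (fun h5 => hne h5.symm) ?_
    have : d r - d s = d r' - d s - (d r' - d r) := by abel
    rwa [this]
  · exfalso
    refine h2 r' s' s r h4 (hs.trans h4) hr ?_
    have h5 := hU _ hin
    have : d r' - (d s' - d s + d r) = -(d s' - d s - (d r' - d r)) := by abel
    rwa [this]

end Pool.Agent.LSG.H43
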