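import Pool.Agent.LSG.StmtsE

/-!
# Squad LSG, row CFA: the density is attained by a neighbourhood
-/

set_option autoImplicit false

open MeasureTheory Set Topology
open scoped BigOperators Pointwise

namespace Pool.Agent.LSG.H43

open Pool.Agent.LSG

theorem inf_of_cover {H : Type} [Group H] {U V : Set H} (hVU : V ⊆ U)
    (hU : ∀ F : Finset H, (⋃ g ∈ F, g • U) ≠ Set.univ) (F : Set H)
    (hF : (⋃ g ∈ F, g • V) = Set.univ) : F.Infinite := by
  intro hfin
  refine hU hfin.toFinset ?_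
  rw [Set.eq_univ_iff_forall] at hF ⊢
  intro x
  obtain ⟨g, hg, hx⟩ := Set.mem_iUnion₂.1 (hF x)
  exact Set.mem_iUnion₂.2 ⟨g, hfin.mem_toFinset.2 hg, Set.smul_set_mono hVU hx⟩

theorem cfa : CfaStmt := by
  classical
  intro H _ _ _ _ D hD hmin hcof hU
  obtain ⟨U, hUn, hU⟩ := hU
  by_cases hc : D.Countable
  · refine ⟨U, hUn, ?_, fun F hF => inf_of_cover (subset_refl U) hU F hF⟩
    intro F hF
    have h1 := inf_of_cover (subset_refl U) hU F hF
    have h2 : Cardinal.mk D ≤ Cardinal.aleph0 := Cardinal.mk_le_aleph0_iff.2 hc.to_subtype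
    have h3 : Cardinal.aleph0 ≤ Cardinal.mk F := Cardinal.infinite_iff.1 h1.to_subtype
    exact h2.trans h3
  · have hcf : Cardinal.aleph0 < (Cardinal.mk D).ord.cof := hcof.resolve_left hc
    have hDc : Cardinal.aleph0 < Cardinal.mk D :=
      hcf.trans_le (Ordinal.cof_ord_le _)
    obtain ⟨V, hV⟩ := (nhds (1 : H)).exists_antitone_basis
    have hVn : ∀ n, V n ∩ U ∈ nhds (1 : H) := fun n => Filter.inter_mem (hV.1.mem_of_mem trivial) hUn
    by_contra hcon
    push Not at hcon
    have hex : ∀ n, ∃ F : Set H, (⋃ g ∈ F, g • (V n ∩ U)) = Set.univ ∧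
        Cardinal.mk F < Cardinal.mk D := by
      intro n
      by_contra hno
      push Not at hno
      obtain ⟨F, hF, hFi⟩ := hcon (V n ∩ U) (hVn n) hno
      exact (inf_of_cover inter_subset_right hU F hF) hFi
    choose F hF hFc using hex
    have hdense : Dense (⋃ n, F n) := by
      intro h
      rw [mem_closure_iff_nhds]
      intro N hN
      have hcont : Continuous fun w : H => h * w⁻¹ := by fun_prop
      have h1 : (fun w : H => h * w⁻¹) ⁻¹' N ∈ nhds (1 : H) :=
        hcont.continuousAt.preimage_mem_nhds (by simpa using hN)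
      obtain ⟨n, -, hn⟩ := hV.1.mem_iff.1 h1
      have h2 : h ∈ ⋃ g ∈ F n, g • (V n ∩ U) := by rw [hF n]; trivial
      obtain ⟨g, hg, hx⟩ := Set.mem_iUnion₂.1 h2
      obtain ⟨w, hw, hgw⟩ := Set.mem_smul_set.1 hx
      refine ⟨g, ?_, Set.mem_iUnion.2 ⟨n, hg⟩⟩
      have h3 : h * w⁻¹ = g := by rw [← hgw]; simp
      have h4 := hn hw.1
      rw [Set.mem_preimage, h3] at h4
      exact h4
    have h5 := hmin _ hdense
    have h6 : Cardinal.mk (⋃ n, F n) < Cardinal.mk D :=
      Cardinal.mk_iUnion_le_sum_mk.trans_lt <| (Cardinal.sum_le_mk_mul_iSup _).trans_lt <|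
        Cardinal.mul_lt_of_lt hDc.le (by rw [Cardinal.mk_nat]; exact hDc)
          (Cardinal.iSup_lt_of_lt_cof_ord (by rw [Cardinal.mk_nat]; exact hcf) hFc)
    exact absurd h5 (not_le.2 h6)

end Pool.Agent.LSG.H43
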